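import Pool.Agent.H628R3.RO.F6

set_option autoImplicit false

/-!
# Relative to a random oracle, there is no complete disjoint `coNP` pair
-/

namespace Pool.Agent.Results.MP_46935e_lc.RandomOracleNoComplete

open Pool.Agent.H628R3.RO

/-- For almost every oracle `A`, no disjoint `coNP` pair relative to `A` is complete: for each of
them there is another one that does not reduce to it. -/
theorem result : ∀ᵐ A ∂randomOracle, ∀ K₀ K₁ : Set (List Bool), IsPair (IsCoNP A) K₀ K₁ →
    ∃ L₀ L₁ : Set (List Bool), IsPair (IsCoNP A) L₀ L₁ ∧ ¬ RedPair A L₀ L₁ K₀ K₁ :=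
  pairC_main

end Pool.Agent.Results.MP_46935e_lc.RandomOracleNoComplete
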